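import Pool.Agent.R343.Loc5

set_option autoImplicit false

namespace Pool.Agent.Results.MP_6ba634_co.CyclesPaths

open SimpleGraph Pool.Agent.R343.Loc

/-- The locating chromatic numbers of `K_m □ C_n` and `K_m □ P_n` agree for all large `m` and `n`;
in fact both are `m + 1` if `n ≤ m + 1` and `m + 2` otherwise, as soon as `m ≥ 17` and `n ≥ 8`. -/
theorem result :
    (∃ N : ℕ, ∀ m n : ℕ, N ≤ m → N ≤ n →
      chiL ((⊤ : SimpleGraph (Fin m)) □ cycleGraph n) =
        chiL ((⊤ : SimpleGraph (Fin m)) □ pathGraph n)) ∧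
    ∀ m n : ℕ, 17 ≤ m → 8 ≤ n →
      chiL ((⊤ : SimpleGraph (Fin m)) □ cycleGraph n) =
        (if n ≤ m + 1 then m + 1 else m + 2) ∧
      chiL ((⊤ : SimpleGraph (Fin m)) □ pathGraph n) =
        (if n ≤ m + 1 then m + 1 else m + 2) := by
  refine ⟨⟨17, fun m n hm hn => ?_⟩, fun m n hm hn => ⟨chi_cyc hm hn, chi_path hm hn⟩⟩
  rw [chi_cyc hm (by omega), chi_path hm (by omega)]

end Pool.Agent.Results.MP_6ba634_co.CyclesPaths
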